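import Pool.Agent.Q123.KB.Defs

/-!
# Betti numbers of the powers of a monomial ideal across all fields

For a field `K` and a set `A` of exponents, `monIdeal K A` is the ideal of `K[x_1,…,x_n]` generated by
the monomials with exponent in `A`. `betti J i` is `dim_K Tor_i(J, K)`, the sum over all multidegrees
`b` of the dimensions `gradedBetti J i b` of the components of multidegree `b` of the `i`-th homology
of the Koszul complex of `x_1,…,x_n` with coefficients in `J` (all defined in
`Pool.Agent.Q123.KB.Defs`).

Proof: the component of multidegree `b` of the Koszul complex of a monomial ideal is the chain complex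
of a family of subsets of `{1,…,n}` (the upper Koszul complex), which does not depend on the field.
There are finitely many such families, and the homology of each has dimension at most `2 ^ n`; so the
function which assigns to each family the dimensions of its homology over `K` takes, as `K` varies,
finitely many values, and it determines all Betti numbers of all monomial ideals over `K`.
-/

set_option autoImplicit false

open Pool.Agent.Q123.KB MvPolynomial Pool.Agent.H677R3.EdgeReg

namespace Pool.Agent.Results.MP_f65b1b_al.FinitelyManySequences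

/-- the exponents of the monomials of the ideal generated by the monomials in `A` -/
def Above {n : ℕ} (A : Set (Fin n →₀ ℕ)) (u : Fin n → ℕ) : Prop := ∃ s ∈ A, ∀ v, s v ≤ u v

theorem mem_iff {n : ℕ} {K : Type*} [Field K] (A : Set (Fin n →₀ ℕ)) (p : MvPolynomial (Fin n) K) :
    p ∈ monIdeal K A ↔ ∀ c ∈ p.support, Above A ⇑c := mem_monIdeal A p

theorem comb_zero {n : ℕ} {K : Type*} [Field K] (F : Finset (Finset (Fin n))) {i : ℕ}
    (hi : n < i) : combBetti K F i = 0 := by
  refine combBetti_eq_zero fun a ha => ?_
  have : a = 0 := by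
    ext1 T
    by_contra h
    have h1 := (ha.1 T h).2
    have h2 : T.card ≤ n := by simpa using Finset.card_le_univ T
    omega
  rw [this]
  exact Submodule.zero_mem _

/-- (2): the tables of all Betti numbers of all monomial ideals in `n` variables -/
theorem tables (n : ℕ) :
    {F : Set (Fin n →₀ ℕ) → ℕ → ℕ∞ | ∃ (K : Type) (_ : Field K),
      F = fun A i => betti (monIdeal K A) i}.Finite := by
  classical
  let decode : (Finset (Finset (Fin n)) → Fin (n + 1) → Fin (2 ^ n + 1)) →
      Set (Fin n →₀ ℕ) → ℕ → ℕ∞ := fun c A i =>
    if h : i < n + 1 then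
      ⨆ s : Finset (Fin n →₀ ℕ), ∑ b ∈ s, (((c (fam (Above A) b) ⟨i, h⟩ : Fin (2 ^ n + 1)) : ℕ) : ℕ∞)
    else 0
  refine (Set.finite_range decode).subset ?_
  rintro F ⟨K, _, rfl⟩
  refine ⟨fun F i => ⟨combBetti K F i, Nat.lt_succ_of_le (combBetti_le F i)⟩, ?_⟩
  funext A i
  change (if h : i < n + 1 then _ else _) = _
  unfold betti
  by_cases h : i < n + 1
  · rw [dif_pos h]
    refine iSup_congr fun s => Finset.sum_congr rfl fun b _ => ?_
    rw [gradedBetti_eq (mem_iff A)]
  · rw [dif_neg h]
    symm
    rw [ENat.iSup_eq_zero]
    intro s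
    refine Finset.sum_eq_zero fun b _ => ?_
    rw [gradedBetti_eq (mem_iff A), comb_zero _ (by omega)]
    rfl

open scoped Pointwise in
/-- the exponents of the products of `h` generators -/
def sums {n : ℕ} (A : Set (Fin n →₀ ℕ)) : ℕ → Set (Fin n →₀ ℕ)
  | 0 => {0}
  | h + 1 => sums A h + A

theorem pow_eq {n : ℕ} {K : Type*} [Field K] (A : Set (Fin n →₀ ℕ)) (h : ℕ) :
    monIdeal K A ^ h = monIdeal K (sums A h) := by
  induction h with
  | zero =>
    rw [pow_zero, Ideal.one_eq_top]
    symm
    rw [Ideal.eq_top_iff_one]
    refine Ideal.subset_span ⟨0, rfl, ?_⟩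
    rfl
  | succ h ih => rw [pow_succ, ih, monIdeal_mul]; rfl

/-- (1) For every finite set of monomials in `x_1,…,x_n`, with exponents `A`, and every `i`, only
finitely many sequences `(β_i(I ^ h))_{h ≥ 1}` occur if the ideal `I` generated by the monomials is
taken over the fields with `p` elements, `p` prime (the sequence is written as the function
`h ↦ β_i(I ^ (h + 1))` of `h ≥ 0`). (2) More generally, as `K` runs over all fields, only finitely
many functions occur which assign to every set `A` of exponents (to every monomial ideal in `n`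
variables) and every `i` the Betti number `β_i` over `K` of the ideal of `K[x_1,…,x_n]` generated by
the monomials with exponents in `A`. -/
theorem result (n : ℕ) :
    (∀ (A : Finset (Fin n →₀ ℕ)) (i : ℕ),
      {s : ℕ → ℕ∞ | ∃ (p : ℕ) (_ : Fact p.Prime),
        s = fun h => betti (monIdeal (ZMod p) (A : Set (Fin n →₀ ℕ)) ^ (h + 1)) i}.Finite) ∧
    {F : Set (Fin n →₀ ℕ) → ℕ → ℕ∞ | ∃ (K : Type) (_ : Field K),
      F = fun A i => betti (monIdeal K A) i}.Finite := by
  refine ⟨fun A i => ?_, tables n⟩
  refine ((tables n).image fun F (h : ℕ) => F (sums (A : Set (Fin n →₀ ℕ)) (h + 1)) i).subset ?_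
  rintro s ⟨p, hp, rfl⟩
  refine ⟨_, ⟨ZMod p, inferInstance, rfl⟩, ?_⟩
  funext h
  change betti (monIdeal (ZMod p) (sums (A : Set (Fin n →₀ ℕ)) (h + 1))) i = _
  rw [pow_eq]

end Pool.Agent.Results.MP_f65b1b_al.FinitelyManySequences
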